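import Pool.Agent.H12.KSJ.Targets

/-!
# The residue map of a discrete valuation ring (row RDV of ksj_modules)
-/

set_option autoImplicit false

open CategoryTheory TopologicalSpace Opposite AlgebraicGeometry Limits
open Pool.Agent.H62.MK Pool.Agent.H84.KEW Pool.Agent.H19.KN
open Pool.Agent.H17.KW (kap Pts entry column dFam D dD Gersten topSh KSh redSh thick thickι Fsh AbSh
  cycK)
open Pool.Agent.H12.KG (Sp GenSp kA stA rho projStr)

universe u

namespace Pool.Agent.H4.KSJ

open Pool.Agent.H12.KSJ

noncomputable section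

section

variable {O F : Type u} [CommRing O] [IsLocalRing O] [Field F] [Algebra O F]

/-- the valuation ring -/
def vr (hd : IsDiscreteValuationRing (algebraMap O F).range)
    (hf : ∀ z : F, ∃ a b : O, algebraMap O F b ≠ 0 ∧ z * algebraMap O F b = algebraMap O F a) :
    ValuationSubring F where
  toSubring := (algebraMap O F).range
  mem_or_inv_mem' := by
    intro z
    obtain ⟨a, b, hb, hab⟩ := hf z
    obtain ⟨c, hc⟩ := ValuationRing.cond (⟨algebraMap O F a, a, rfl⟩ : (algebraMap O F).range)
      ⟨algebraMap O F b, b, rfl⟩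
    have key : (c : F) ∈ (algebraMap O F).range := c.2
    rcases hc with h | h
    · have h1 : algebraMap O F a * (c : F) = algebraMap O F b := congrArg Subtype.val h
      by_cases ha : algebraMap O F a = 0
      · left
        have hz : z = 0 := by
          rw [ha] at hab
          exact (mul_eq_zero.1 hab).resolve_right hb
        rw [hz]
        exact (algebraMap O F).range.zero_mem
      · right
        have h2 : z * (c : F) = 1 := by
          have h3 : z * (algebraMap O F a * (c : F)) = algebraMap O F a := by rw [h1, hab]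
          apply mul_left_cancel₀ ha
          linear_combination h3
        rw [← eq_inv_of_mul_eq_one_right h2]
        exact key
    · left
      have h1 : algebraMap O F b * (c : F) = algebraMap O F a := congrArg Subtype.val h
      have h2 : z = c := by
        apply mul_left_cancel₀ hb
        rw [h1, ← hab, mul_comm]
      rw [h2]
      exact key

variable (hd : IsDiscreteValuationRing (algebraMap O F).range)
  (hf : ∀ z : F, ∃ a b : O, algebraMap O F b ≠ 0 ∧ z * algebraMap O F b = algebraMap O F a)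

theorem mem_vr {z : F} : z ∈ vr hd hf ↔ ∃ a : O, algebraMap O F a = z := Iff.rfl

/-- the ring isomorphism -/
def eqv : (algebraMap O F).range ≃+* vr hd hf where
  toFun x := ⟨x, x.2⟩
  invFun x := ⟨x, x.2⟩
  left_inv _ := rfl
  right_inv _ := rfl
  map_mul' _ _ := rfl
  map_add' _ _ := rfl

theorem dvr_vr : IsDiscreteValuationRing (vr hd hf) :=
  IsDiscreteValuationRing.RingEquivClass.isDiscreteValuationRing (eqv hd hf)

/-- the dominating valuation ring -/
def d0 : Dom O F where
  val := vr hd hf
  dvr := dvr_vr hd hf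
  mem a := ⟨a, rfl⟩
  dom := by
    intro a ha
    rw [IsLocalRing.mem_maximalIdeal]
    intro hu
    obtain ⟨c, hc⟩ := hu.exists_right_inv
    obtain ⟨c', hc'⟩ := (mem_vr hd hf).1 c.2
    have h1 : algebraMap O F a * (c : F) = 1 := congrArg Subtype.val hc
    rw [← hc', ← map_mul] at h1
    have h2 : algebraMap O F (1 - a * c') = 0 := by
      rw [map_sub, map_one, h1, sub_self]
    have h3 : IsUnit (1 - a * c') := by
      by_contra h
      have h4 : (1 - a * c') + a * c' ∈ IsLocalRing.maximalIdeal O :=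
        (IsLocalRing.maximalIdeal O).add_mem ((IsLocalRing.mem_maximalIdeal _).2 h)
          ((IsLocalRing.maximalIdeal O).mul_mem_right _ ha)
      rw [sub_add_cancel] at h4
      exact (IsLocalRing.maximalIdeal.isMaximal O).ne_top ((Ideal.eq_top_iff_one _).2 h4)
    have h4 := h3.map (algebraMap O F)
    rw [h2] at h4
    exact not_isUnit_zero h4

theorem val_eq (V : Dom O F) : V.val = vr hd hf := by
  have hle : ∀ z, z ∈ vr hd hf → z ∈ V.val := by
    intro z hz
    obtain ⟨a, rfl⟩ := (mem_vr hd hf).1 hz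
    exact V.mem a
  apply SetLike.ext
  intro z
  refine ⟨fun hz => ?_, hle z⟩
  by_contra hcon
  have h1 : z⁻¹ ∈ vr hd hf := ((vr hd hf).mem_or_inv_mem z).resolve_left hcon
  obtain ⟨t, ht⟩ := (mem_vr hd hf).1 h1
  have hz0 : z ≠ 0 := by
    rintro rfl
    exact hcon (zero_mem _)
  have ht1 : t ∈ IsLocalRing.maximalIdeal O := by
    rw [IsLocalRing.mem_maximalIdeal]
    intro hu
    obtain ⟨s, hs⟩ := hu.exists_right_inv
    apply hcon
    refine (mem_vr hd hf).2 ⟨s, ?_⟩
    have h2 : z⁻¹ * algebraMap O F s = 1 := by rw [← ht, ← map_mul, hs, map_one]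
    have h3 := eq_inv_of_mul_eq_one_right h2
    rw [h3, inv_inv]
  have h2 := V.dom t ht1
  rw [IsLocalRing.mem_maximalIdeal] at h2
  apply h2
  refine IsUnit.of_mul_eq_one ⟨z, hz⟩ ?_
  apply Subtype.ext
  change algebraMap O F t * z = 1
  rw [ht, inv_mul_cancel₀ hz0]

theorem eq_d0 (V : Dom O F) : V = d0 hd hf := by
  have h := val_eq hd hf V
  obtain ⟨val, dvr, mem, dom⟩ := V
  change val = vr hd hf at h
  subst h
  rfl

theorem gersten_eq (n : ℕ) : gerstenResidue O F n = (d0 hd hf).residue n := by
  unfold gerstenResidue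
  exact finsum_eq_single _ (d0 hd hf) fun V hV => absurd (eq_d0 hd hf V) hV

end

theorem pf_RDV (hN : T_NRM1.{u}) : T_RDV.{u} := by
  intro O F _ _ _ _ hd hf t t' htt hirr n a
  rw [gersten_eq hd hf]
  haveI := dvr_vr hd hf
  unfold Dom.residue
  rw [AddMonoidHom.comp_apply]
  set V0 := vr hd hf with hV0
  have hord : ∀ u : Oˣ, (valDV V0).ord (Units.map (algebraMap O F).toMonoidHom u) = 0 := by
    intro u
    have h := (d0 hd hf).mem_of_unit (Units.map (algebraMap O F).toMonoidHom u) ⟨u, rfl⟩
    exact valDV_ord_eq_zero V0 _ h.1 h.2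
  have hmem : ∀ s : Fˣ, (s : F) ∈ V0 ↔ 0 ≤ (valDV V0).ord s := by
    intro s
    rw [← valDV_mem]
    exact (valDV V0).mem_ring s
  -- units of the range
  have hunit : ∀ (s : Fˣ) (s' : (algebraMap O F).range), (s' : F) = s →
      (IsUnit s' ↔ (valDV V0).ord s = 0) := by
    intro s s' hs
    have h1 : 0 ≤ (valDV V0).ord s := (hmem s).1 (by rw [← hs]; exact s'.2)
    constructor
    · intro hu
      obtain ⟨r, hr⟩ := hu.exists_right_inv
      have h2 : (s : F) * (r : F) = 1 := by
        rw [← hs]
        exact congrArg Subtype.val hr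
      have h3 : (r : F) = ((s⁻¹ : Fˣ) : F) := by
        rw [Units.val_inv_eq_inv_val]
        exact eq_inv_of_mul_eq_one_right h2
      have h4 : 0 ≤ (valDV V0).ord s⁻¹ := (hmem _).1 (by rw [← h3]; exact r.2)
      rw [(valDV V0).ord_inv] at h4
      omega
    · intro h0
      have h2 : ((s⁻¹ : Fˣ) : F) ∈ V0 := (hmem _).2 (by rw [(valDV V0).ord_inv, h0, neg_zero])
      refine IsUnit.of_mul_eq_one ⟨((s⁻¹ : Fˣ) : F), h2⟩ ?_
      apply Subtype.ext
      change (s' : F) * ((s⁻¹ : Fˣ) : F) = 1
      rw [hs]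
      exact s.mul_inv
  have hordt : (valDV V0).ord t = 1 := by
    obtain ⟨s, hs⟩ := (valDV V0).ord_surj 1
    have h1 : 0 ≤ (valDV V0).ord t := (hmem t).1 (by rw [← htt]; exact t'.2)
    have h2 : (valDV V0).ord t ≠ 0 := fun h => hirr.not_isUnit ((hunit t t' htt).2 h)
    have hsm : (s : F) ∈ V0 := (hmem s).2 (by rw [hs]; norm_num)
    have hw : (valDV V0).ord (t * s⁻¹) = (valDV V0).ord t - 1 := by
      rw [(valDV V0).ord_mul, (valDV V0).ord_inv, hs]
      ring
    have hwm : ((t * s⁻¹ : Fˣ) : F) ∈ V0 := (hmem _).2 (by rw [hw]; omega)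
    have h3 : t' = (⟨((t * s⁻¹ : Fˣ) : F), hwm⟩ : (algebraMap O F).range) * ⟨(s : F), hsm⟩ := by
      apply Subtype.ext
      change (t' : F) = ((t * s⁻¹ : Fˣ) : F) * (s : F)
      rw [htt, ← Units.val_mul, inv_mul_cancel_right]
    rcases hirr.isUnit_or_isUnit h3 with h | h
    · have h4 := (hunit (t * s⁻¹) _ rfl).1 h
      omega
    · have h4 := (hunit s _ rfl).1 h
      omega
  have h1 : tame (valDV V0) n (cup t (sym fun i =>
      Units.map (algebraMap O F).toMonoidHom (a i))) =
      Pool.Agent.H62.MK.map (d0 hd hf).resMap n (sym fun i =>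
        Units.map (IsLocalRing.residue O).toMonoidHom (a i)) := by
    rw [tame_cup_sym_units _ n t _ (fun i => hord (a i)), hordt, one_smul, map_sym]
    congr 1
    funext i
    apply Units.ext
    rw [(valDV V0).ures_of_ord_eq_zero _ (hord (a i))]
    unfold DV.resUnit
    rw [Units.val_mk0]
    exact valDV_res V0 (⟨algebraMap O F (a i), (a i : O), rfl⟩ : V0) _
  change normOf (d0 hd hf).resMap n (tame (valDV V0) n _) = _
  rw [h1]
  letI : Algebra (IsLocalRing.ResidueField O) (IsLocalRing.ResidueField (d0 hd hf).val) :=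
    (d0 hd hf).resMap.toAlgebra
  refine hN (IsLocalRing.ResidueField O) (IsLocalRing.ResidueField (d0 hd hf).val) ?_ n _
  refine ⟨RingHom.injective _, fun y => ?_⟩
  obtain ⟨v, rfl⟩ := IsLocalRing.residue_surjective y
  obtain ⟨c, hc⟩ := (mem_vr hd hf).1 v.2
  refine ⟨IsLocalRing.residue O c, ?_⟩
  change IsLocalRing.residue (d0 hd hf).val ((d0 hd hf).toVal c) = _
  congr 1
  exact Subtype.ext hc

end

end Pool.Agent.H4.KSJ
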